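import Mathlib
import Pool.Agent.Q316.Var.Sigma3

/-!
# A variety whose isomorphism relations `I_{V_n}`, `n ≥ 1`, are all equivalent to `=^ce`
-/

set_option autoImplicit false

namespace Pool.Agent.Results.MP_f76ce6_lc.ConstantOperations

/-! ### Definitions used in the statement -/

/-- A signature: function symbols indexed by a decidable set of numbers, with computable arity. -/
structure Sig where
  /-- the indices of the function symbols -/
  dom : Set ℕ
  /-- the arities -/
  ar : ℕ → ℕ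
  computable_dom : ComputablePred fun k => k ∈ dom
  computable_ar : Computable ar

/-- Terms with variables in `X`. -/
inductive Tm (S : Sig) (X : Type) : Type
  | var : X → Tm S X
  | app : (k : ℕ) → k ∈ S.dom → (Fin (S.ar k) → Tm S X) → Tm S X

/-- Substitution. -/
def Tm.subst {S : Sig} {X Y : Type} (σ : X → Tm S Y) : Tm S X → Tm S Y
  | .var x => σ x
  | .app k h f => .app k h fun i => (f i).subst σ

/-- Algebras of the signature `S`. -/
structure Alg (S : Sig) where
  carrier : Type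
  op : (k : ℕ) → k ∈ S.dom → (Fin (S.ar k) → carrier) → carrier

/-- The value of a term. -/
def Alg.eval {S : Sig} (A : Alg S) {X : Type} (v : X → A.carrier) : Tm S X → A.carrier
  | .var x => v x
  | .app k h f => A.op k h fun i => A.eval v (f i)

/-- `A ≅ B`. -/
def Iso {S : Sig} (A B : Alg S) : Prop :=
  ∃ φ : A.carrier ≃ B.carrier, ∀ k h v, φ (A.op k h v) = B.op k h fun i => φ (v i)

/-- A variety is given by a set of equational laws (pairs of terms in the variables `ℕ`). -/
abbrev Variety (S : Sig) := Set (Tm S ℕ × Tm S ℕ)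

/-- `A` is a member of the variety. -/
def Variety.Mem {S : Sig} (V : Variety S) (A : Alg S) : Prop :=
  ∀ p ∈ V, ∀ v : ℕ → A.carrier, A.eval v p.1 = A.eval v p.2

/-- The variety contains an algebra with at least two elements. -/
def Variety.Nontriv {S : Sig} (V : Variety S) : Prop :=
  ∃ A : Alg S, V.Mem A ∧ ∃ a b : A.carrier, a ≠ b

/-- The codes of the terms in the generators `x_0, …, x_{n-1}`. -/
def Tm.code {S : Sig} {n : ℕ} : Tm S (Fin n) → ℕ
  | .var i => 2 * i
  | .app k _ f => 2 * Nat.pair k (Encodable.encode (List.ofFn fun i => (f i).code)) + 1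

/-- `x` is in the `e`-th c.e. set. -/
def W (e x : ℕ) : Prop := ((Denumerable.ofNat Nat.Partrec.Code e).eval x).Dom

/-- The congruence on the terms in `x_0, …, x_{n-1}` generated by the laws of the variety and the
equations with code in `W_e`. -/
inductive Cg {S : Sig} (V : Variety S) (n e : ℕ) : Tm S (Fin n) → Tm S (Fin n) → Prop
  | refl (t) : Cg V n e t t
  | symm {s t} : Cg V n e s t → Cg V n e t s
  | trans {s t u} : Cg V n e s t → Cg V n e t u → Cg V n e s u
  | congr (k h) (f g : Fin (S.ar k) → Tm S (Fin n)) :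
      (∀ i, Cg V n e (f i) (g i)) → Cg V n e (.app k h f) (.app k h g)
  | law {p} : p ∈ V → ∀ σ : ℕ → Tm S (Fin n), Cg V n e (p.1.subst σ) (p.2.subst σ)
  | eqn {s t} : W e (Nat.pair s.code t.code) → Cg V n e s t

/-- the setoid of `Cg` -/
def cgSetoid {S : Sig} (V : Variety S) (n e : ℕ) : Setoid (Tm S (Fin n)) :=
  ⟨Cg V n e, .refl, .symm, .trans⟩

/-- `V_n[W_e]`: the free algebra of the variety on `x_0, …, x_{n-1}` modulo the congruence
generated by the equations with code in `W_e`. -/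
noncomputable def Pres {S : Sig} (V : Variety S) (n e : ℕ) : Alg S where
  carrier := Quotient (cgSetoid V n e)
  op k h v := Quotient.mk (cgSetoid V n e) (.app k h fun i => (v i).out)

/-- The isomorphism relation `I_{V_n}`. -/
def IsoRel {S : Sig} (V : Variety S) (n : ℕ) (e e' : ℕ) : Prop := Iso (Pres V n e) (Pres V n e')

/-- Computable reducibility `E ≤_c F`. -/
def Le (E F : ℕ → ℕ → Prop) : Prop :=
  ∃ f : ℕ → ℕ, Computable f ∧ ∀ x y, E x y ↔ F (f x) (f y)

/-- `E` is `Σ⁰₃`. -/
def IsSigma3 (E : ℕ → ℕ → Prop) : Prop :=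
  ∃ R : ℕ × ℕ × ℕ × ℕ × ℕ → Bool, Computable R ∧
    ∀ x y, E x y ↔ ∃ a, ∀ b, ∃ c, R (x, y, a, b, c) = true

/-- `E` is a `Σ⁰₃`-complete equivalence relation. -/
def Complete (E : ℕ → ℕ → Prop) : Prop :=
  Equivalence E ∧ IsSigma3 E ∧ ∀ F, Equivalence F → IsSigma3 F → Le F E

/-- The relation `=^ce`. -/
def EqCE (e e' : ℕ) : Prop := {x | W e x} = {x | W e' x}

/-- The signature with one function symbol of arity `ar k` for every number `k`. -/
def sig (ar : ℕ → ℕ) (har : Computable ar) : Sig :=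
  ⟨Set.univ, ar, by
    refine ⟨fun _ => .isTrue trivial, ?_⟩
    exact Computable.const true, har⟩

/-- The variety of the algebras in which every operation is constant: the laws
`f_k(x_0, x_1, …) ≈ f_k(y_0, y_1, …)`. -/
def constOps (ar : ℕ → ℕ) (har : Computable ar) : Variety (sig ar har) :=
  {p | ∃ k h, p = (.app k h fun i => .var (2 * i), .app k h fun i => .var (2 * i + 1))}

/-! ### Proofs -/

open Encodable Pool.Agent.Helper578.JD Pool.Agent.Q316.Var

section general

variable {S : Sig} {V : Variety S} {n e : ℕ}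

theorem op_mk (k : ℕ) (h : k ∈ S.dom) (f : Fin (S.ar k) → Tm S (Fin n)) :
    (Pres V n e).op k h (fun i => Quotient.mk (cgSetoid V n e) (f i)) =
      Quotient.mk (cgSetoid V n e) (.app k h f) := by
  refine Quotient.sound (s := cgSetoid V n e) (Cg.congr _ _ _ _ fun i => ?_)
  exact Quotient.exact (s := cgSetoid V n e) (Quotient.out_eq _)

/-- sanity check: `V_n[W_e]` is in the variety -/
theorem eval_pres {X : Type} (σ : X → Tm S (Fin n)) (t : Tm S X) :
    (Pres V n e).eval (fun x => Quotient.mk (cgSetoid V n e) (σ x)) t =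
      Quotient.mk (cgSetoid V n e) (t.subst σ) := by
  induction t with
  | var x => rfl
  | app k h f ih =>
    show (Pres V n e).op k h (fun i => (Pres V n e).eval
      (fun x => Quotient.mk (cgSetoid V n e) (σ x)) (f i)) = _
    rw [Tm.subst, ← op_mk]
    congr 1
    funext i
    exact ih i

theorem pres_mem : V.Mem (Pres V n e) := by
  intro p hp v
  have : v = fun x => Quotient.mk (cgSetoid V n e) (v x).out :=
    funext fun x => (Quotient.out_eq _).symm
  rw [this, eval_pres, eval_pres]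
  exact Quotient.sound (s := cgSetoid V n e) (Cg.law hp _)

end general

/-! ### algebras with constant operations -/

section abstract

variable {S : Sig}

/-- all operations of `A` are constant, with values `c k` -/
def ConstAlg (A : Alg S) (c : ℕ → A.carrier) : Prop := ∀ k h v, A.op k h v = c k

/-- the elements which are not constants -/
def NC (A : Alg S) (c : ℕ → A.carrier) : Set A.carrier := {a | ∀ k, a ≠ c k}

theorem iso_iff (hS : ∀ k, k ∈ S.dom) {A B : Alg S} {c : ℕ → A.carrier} {d : ℕ → B.carrier}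
    (hA : ConstAlg A c) (hB : ConstAlg B d) (fA : (NC A c).Finite) (fB : (NC B d).Finite)
    (v0 : A.carrier) :
    Iso A B ↔ (∀ a b, c a = c b ↔ d a = d b) ∧ (NC A c).ncard = (NC B d).ncard := by
  classical
  constructor
  · rintro ⟨φ, hφ⟩
    have h1 : ∀ k, φ (c k) = d k := by
      intro k
      have := hφ k (hS k) (fun _ => v0)
      rw [hA, hB] at this
      exact this
    refine ⟨fun a b => ?_, ?_⟩
    · rw [← h1, ← h1]
      exact (φ.injective.eq_iff).symm
    · have h2 : NC B d = φ '' NC A c := by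
        ext y
        constructor
        · intro hy
          refine ⟨φ.symm y, fun k hk => hy k ?_, by simp⟩
          rw [← h1, ← hk]; simp
        · rintro ⟨x, hx, rfl⟩ k hk
          rw [← h1] at hk
          exact hx k (φ.injective hk)
      rw [h2, Set.ncard_image_of_injective _ φ.injective]
  · rintro ⟨h1, h2⟩
    obtain ⟨ψ⟩ : Nonempty (NC A c ≃ NC B d) := by
      have := fA.to_subtype
      have := fB.to_subtype
      exact ⟨(Finite.equivFinOfCardEq h2).trans (Finite.equivFinOfCardEq rfl).symm⟩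
    let F : A.carrier → B.carrier := fun a =>
      if h : ∃ k, a = c k then d h.choose else ψ ⟨a, fun k hk => h ⟨k, hk⟩⟩
    have hF1 : ∀ k, F (c k) = d k := by
      intro k
      have h : ∃ j, c k = c j := ⟨k, rfl⟩
      simp only [F, dif_pos h]
      exact ((h1 _ _).1 h.choose_spec).symm
    have hF2 : ∀ a (ha : a ∈ NC A c), F a = ψ ⟨a, ha⟩ := by
      intro a ha
      have h : ¬ ∃ k, a = c k := fun ⟨k, hk⟩ => ha k hk
      simp only [F, dif_neg h]
    have hF : Function.Bijective F := by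
      constructor
      · intro a b hab
        by_cases ha : ∃ k, a = c k
        · obtain ⟨k, rfl⟩ := ha
          by_cases hb : ∃ k, b = c k
          · obtain ⟨j, rfl⟩ := hb
            rw [hF1, hF1] at hab
            exact (h1 _ _).2 hab
          · have hb' : b ∈ NC A c := fun k hk => hb ⟨k, hk⟩
            rw [hF1, hF2 b hb'] at hab
            exact absurd hab.symm ((ψ ⟨b, hb'⟩).2 k)
        · have ha' : a ∈ NC A c := fun k hk => ha ⟨k, hk⟩
          by_cases hb : ∃ k, b = c k
          · obtain ⟨j, rfl⟩ := hb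
            rw [hF1, hF2 a ha'] at hab
            exact absurd hab ((ψ ⟨a, ha'⟩).2 j)
          · have hb' : b ∈ NC A c := fun k hk => hb ⟨k, hk⟩
            rw [hF2 a ha', hF2 b hb'] at hab
            have := ψ.injective (Subtype.ext hab)
            exact congrArg Subtype.val this
      · intro y
        by_cases hy : ∃ k, y = d k
        · obtain ⟨k, rfl⟩ := hy
          exact ⟨c k, hF1 k⟩
        · have hy' : y ∈ NC B d := fun k hk => hy ⟨k, hk⟩
          refine ⟨(ψ.symm ⟨y, hy'⟩).1, ?_⟩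
          rw [hF2 _ (ψ.symm ⟨y, hy'⟩).2]
          simp
    refine ⟨Equiv.ofBijective F hF, fun k h v => ?_⟩
    rw [hA, hB]
    exact hF1 k

end abstract

/-! ### the variety of algebras with constant operations -/

section const

variable {ar : ℕ → ℕ} {har : Computable ar} {n : ℕ}

/-- the generator or constant denoted by a term -/
def nf : Tm (sig ar har) (Fin n) → ℕ
  | .var i => 2 * i
  | .app k _ _ => 2 * k + 1

/-- the same from the code -/
def nfc (c : ℕ) : ℕ := if c % 2 = 0 then c else 2 * (c / 2).unpair.1 + 1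

theorem nfc_code (t : Tm (sig ar har) (Fin n)) : nfc t.code = nf t := by
  cases t with
  | var i => simp [nfc, nf, Tm.code]
  | app k h f =>
    unfold nfc nf Tm.code
    have h1 : ¬ (2 * Nat.pair k (encode (List.ofFn fun i => (f i).code)) + 1) % 2 = 0 := by omega
    have h2 : (2 * Nat.pair k (encode (List.ofFn fun i => (f i).code)) + 1) / 2 =
      Nat.pair k (encode (List.ofFn fun i => (f i).code)) := by omega
    rw [if_neg h1, h2, Nat.unpair_pair]

/-- generators or constants directly identified -/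
def Gn (ar : ℕ → ℕ) (har : Computable ar) (n e u v : ℕ) : Prop :=
  ∃ s t : Tm (sig ar har) (Fin n), W e (Nat.pair s.code t.code) ∧ nf s = u ∧ nf t = v

def Gs (ar : ℕ → ℕ) (har : Computable ar) (n e u v : ℕ) : Prop :=
  Gn ar har n e u v ∨ Gn ar har n e v u

/-- the equivalence relation on generators and constants -/
def T (ar : ℕ → ℕ) (har : Computable ar) (n e u v : ℕ) : Prop :=
  Relation.ReflTransGen (Gs ar har n e) u v

theorem T.symm {e u v : ℕ} (h : T ar har n e u v) : T ar har n e v u :=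
  (@Relation.ReflTransGen.stdSymm _ (Gs ar har n e) ⟨fun _ _ h => Or.symm h⟩).symm _ _ h

theorem cg_of_nf (hn : 0 < n) {e : ℕ} {s t : Tm (sig ar har) (Fin n)} (h : nf s = nf t) :
    Cg (constOps ar har) n e s t := by
  cases s with
  | var i =>
    cases t with
    | var j =>
      have : i = j := Fin.ext (by simpa [nf] using h)
      rw [this]; exact .refl _
    | app k' h' g => simp only [nf] at h; omega
  | app k hk f =>
    cases t with
    | var j => simp only [nf] at h; omega
    | app k' h' g =>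
      have hkk : k = k' := by simp only [nf] at h; omega
      subst hkk
      let σ : ℕ → Tm (sig ar har) (Fin n) := fun j =>
        if h : j / 2 < ar k then (if j % 2 = 0 then f ⟨j / 2, h⟩ else g ⟨j / 2, h⟩)
        else .var ⟨0, hn⟩
      have h1 := Cg.law (V := constOps ar har) (n := n) (e := e)
        (p := (.app k hk fun i => .var (2 * i), .app k hk fun i => .var (2 * i + 1)))
        ⟨k, hk, rfl⟩ σ
      have h2 : ∀ i : Fin (ar k), σ (2 * i) = f i := by
        intro i
        have h3 : (2 * (i : ℕ)) / 2 = i := by omega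
        have h4 : (2 * (i : ℕ)) / 2 < ar k := by rw [h3]; exact i.2
        have h5 : (2 * (i : ℕ)) % 2 = 0 := by omega
        simp only [σ, dif_pos h4, if_pos h5]
        congr 1
        exact Fin.ext h3
      have h2' : ∀ i : Fin (ar k), σ (2 * i + 1) = g i := by
        intro i
        have h3 : (2 * (i : ℕ) + 1) / 2 = i := by omega
        have h4 : (2 * (i : ℕ) + 1) / 2 < ar k := by rw [h3]; exact i.2
        have h5 : ¬ (2 * (i : ℕ) + 1) % 2 = 0 := by omega
        simp only [σ, dif_pos h4, if_neg h5]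
        congr 1
        exact Fin.ext h3
      have h6 : (Tm.app (S := sig ar har) k hk fun i => .var (2 * (i : ℕ))).subst σ =
          .app k hk f := by
        rw [Tm.subst]
        congr 1
        funext i
        exact h2 i
      have h7 : (Tm.app (S := sig ar har) k hk fun i => .var (2 * (i : ℕ) + 1)).subst σ =
          .app k hk g := by
        rw [Tm.subst]
        congr 1
        funext i
        exact h2' i
      simp only at h1
      rw [h6, h7] at h1
      exact h1

theorem cg_iff (hn : 0 < n) {e : ℕ} {s t : Tm (sig ar har) (Fin n)} :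
    Cg (constOps ar har) n e s t ↔ T ar har n e (nf s) (nf t) := by
  constructor
  · intro h
    induction h with
    | refl t => exact .refl
    | symm _ ih => exact ih.symm
    | trans _ _ ih1 ih2 => exact Relation.ReflTransGen.trans ih1 ih2
    | congr k h f g _ _ => exact .refl
    | @law p hp σ =>
      obtain ⟨k, h, rfl⟩ := hp
      exact .refl
    | @eqn s t h => exact .single (Or.inl ⟨s, t, h, rfl, rfl⟩)
  · intro h
    have key : ∀ v, Relation.ReflTransGen (Gs ar har n e) (nf s) v →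
        ∀ t : Tm (sig ar har) (Fin n), nf t = v → Cg (constOps ar har) n e s t := by
      intro v hv
      induction hv with
      | refl => intro t ht; exact cg_of_nf hn ht.symm
      | tail _ hbc ih =>
        intro t ht
        rcases hbc with ⟨a, b, h1, h2, h3⟩ | ⟨a, b, h1, h2, h3⟩
        · exact ((ih a h2).trans (.eqn h1)).trans (cg_of_nf hn (h3.trans ht.symm))
        · exact ((ih b h3).trans (Cg.symm (.eqn h1))).trans (cg_of_nf hn (h2.trans ht.symm))
    exact key _ h t rfl

/-! ### codes -/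

/-- a list of numbers witnessing that its members are codes -/
def Cl (ar : ℕ → ℕ) (n : ℕ) (L : List ℕ) : Prop :=
  ∀ a ∈ L, (∃ i, i < n ∧ a = 2 * i) ∨
    (∃ (k : ℕ) (l : List ℕ), a = 2 * Nat.pair k (encode l) + 1 ∧ l.length = ar k ∧ ∀ b ∈ l, b ∈ L)

theorem le_encode_of_mem {l : List ℕ} {b : ℕ} (h : b ∈ l) : b ≤ encode l := by
  induction l with
  | nil => simp at h
  | cons a l ih =>
    rw [encode_list_cons]
    rcases List.mem_cons.1 h with rfl | h
    · exact (Nat.left_le_pair _ _).trans (Nat.le_succ _)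
    · exact ((ih h).trans (Nat.right_le_pair _ _)).trans (Nat.le_succ _)

theorem code_iff {c : ℕ} : (∃ t : Tm (sig ar har) (Fin n), t.code = c) ↔
    ∃ L, Cl ar n L ∧ c ∈ L := by
  constructor
  · rintro ⟨t, rfl⟩
    induction t with
    | var i =>
      refine ⟨[2 * i], fun a ha => Or.inl ⟨i, i.2, by simpa using ha⟩, ?_⟩
      simp [Tm.code]
    | app k h f ih =>
      choose L hL hc using ih
      let l := List.ofFn fun i => (f i).code
      refine ⟨(2 * Nat.pair k (encode l) + 1) :: (List.ofFn L).flatten, ?_, ?_⟩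
      · intro a ha
        rcases List.mem_cons.1 ha with rfl | ha
        · right
          refine ⟨k, l, rfl, by simp [l, sig], fun b hb => ?_⟩
          obtain ⟨i, rfl⟩ := (List.mem_ofFn' _ _).1 hb
          refine List.mem_cons_of_mem _ (List.mem_flatten.2 ⟨L i, ?_, hc i⟩)
          exact (List.mem_ofFn' _ _).2 ⟨i, rfl⟩
        · obtain ⟨l', hl', ha'⟩ := List.mem_flatten.1 ha
          obtain ⟨i, rfl⟩ := (List.mem_ofFn' _ _).1 hl'
          rcases hL i a ha' with h1 | ⟨k', l', h1, h2, h3⟩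
          · exact Or.inl h1
          · refine Or.inr ⟨k', l', h1, h2, fun b hb => ?_⟩
            refine List.mem_cons_of_mem _ (List.mem_flatten.2 ⟨L i, ?_, h3 b hb⟩)
            exact (List.mem_ofFn' _ _).2 ⟨i, rfl⟩
      · rw [Tm.code]; exact List.mem_cons_self
  · rintro ⟨L, hL, hc⟩
    induction c using Nat.strong_induction_on with
    | _ c ih =>
      rcases hL c hc with ⟨i, hi, rfl⟩ | ⟨k, l, rfl, h1, h2⟩
      · exact ⟨.var ⟨i, hi⟩, rfl⟩
      · have h3 : ∀ i : Fin (ar k), ∃ t : Tm (sig ar har) (Fin n),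
            t.code = l.get (i.cast h1.symm) := by
          intro i
          have hm : l.get (i.cast h1.symm) ∈ l := List.get_mem _ _
          refine ih _ ?_ (h2 _ hm)
          have h4 := le_encode_of_mem hm
          have h5 := Nat.right_le_pair k (encode l)
          omega
        choose f hf using h3
        refine ⟨.app k trivial f, ?_⟩
        have : (fun i : Fin (ar k) => (f i).code) = fun i => l.get (i.cast h1.symm) :=
          funext hf
        show 2 * Nat.pair k (encode (List.ofFn fun i : Fin (ar k) => (f i).code)) + 1 =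
          2 * Nat.pair k (encode l) + 1
        rw [this]
        congr 4
        apply List.ext_getElem
        · simp [h1]
        · intro i _ _
          simp

theorem re_Cl (har : Computable ar) (n : ℕ) : REPred fun c : ℕ => ∃ L, Cl ar n L ∧ c ∈ L := by
  refine RE.ex (p := fun (c : ℕ) (L : List ℕ) => Cl ar n L ∧ c ∈ L) ?_
  refine RE.and ?_ (RE.mem_list (by fun_prop) (by fun_prop))
  refine RE.all_mem (p := fun (x : ℕ × List ℕ) (a : ℕ) => (∃ i, i < n ∧ a = 2 * i) ∨
    (∃ (k : ℕ) (l : List ℕ), a = 2 * Nat.pair k (encode l) + 1 ∧ l.length = ar k ∧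
      ∀ b ∈ l, b ∈ x.2)) (l := fun x => x.2) ?_ (by fun_prop)
  refine RE.or ?_ ?_
  · refine RE.ex (p := fun (x : (ℕ × List ℕ) × ℕ) (i : ℕ) => i < n ∧ x.2 = 2 * i) ?_
    exact RE.and (RE.lt (by fun_prop) (by fun_prop)) (RE.eq (by fun_prop) (by fun_prop))
  · refine RE.ex (p := fun (x : (ℕ × List ℕ) × ℕ) (k : ℕ) => ∃ (l : List ℕ),
      x.2 = 2 * Nat.pair k (encode l) + 1 ∧ l.length = ar k ∧ ∀ b ∈ l, b ∈ x.1.2) ?_
    refine RE.ex (p := fun (x : ((ℕ × List ℕ) × ℕ) × ℕ) (l : List ℕ) =>
      x.1.2 = 2 * Nat.pair x.2 (encode l) + 1 ∧ l.length = ar x.2 ∧ ∀ b ∈ l, b ∈ x.1.1.2) ?_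
    refine RE.and (RE.eq (by fun_prop) (by fun_prop)) (RE.and (RE.eq (by fun_prop) ?_) ?_)
    · exact har.comp (by fun_prop)
    · refine RE.all_mem (p := fun (x : (((ℕ × List ℕ) × ℕ) × ℕ) × List ℕ) (b : ℕ) =>
        b ∈ x.1.1.1.2) (l := fun x => x.2) ?_ (by fun_prop)
      exact RE.mem_list (by fun_prop) (by fun_prop)

theorem computable_nfc : Computable nfc := by
  refine RE.computable_of_graph (f := nfc) ?_
  have h : REPred fun x : ℕ × ℕ => ∃ m, (x.1 = 2 * m ∧ x.2 = 2 * m) ∨
      (x.1 = 2 * m + 1 ∧ x.2 = 2 * m.unpair.1 + 1) := by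
    refine RE.ex (p := fun (x : ℕ × ℕ) (m : ℕ) => (x.1 = 2 * m ∧ x.2 = 2 * m) ∨
      (x.1 = 2 * m + 1 ∧ x.2 = 2 * m.unpair.1 + 1)) ?_
    exact RE.or (RE.and (RE.eq (by fun_prop) (by fun_prop)) (RE.eq (by fun_prop) (by fun_prop)))
      (RE.and (RE.eq (by fun_prop) (by fun_prop)) (RE.eq (by fun_prop) (by fun_prop)))
  refine h.of_eq fun x => ?_
  obtain ⟨c, y⟩ := x
  simp only [nfc]
  constructor
  · rintro ⟨m, ⟨rfl, rfl⟩ | ⟨rfl, rfl⟩⟩
    · simp
    · have h1 : ¬ (2 * m + 1) % 2 = 0 := by omega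
      have h2 : (2 * m + 1) / 2 = m := by omega
      rw [if_neg h1, h2]
  · intro h
    by_cases h1 : c % 2 = 0
    · rw [if_pos h1] at h
      exact ⟨c / 2, Or.inl ⟨by omega, by omega⟩⟩
    · rw [if_neg h1] at h
      exact ⟨c / 2, Or.inr ⟨by omega, h.symm⟩⟩

theorem re_W : REPred fun p : ℕ × ℕ => W p.1 p.2 := W_re

theorem re_Gn (ar : ℕ → ℕ) (har : Computable ar) (n : ℕ) :
    REPred fun x : ℕ × ℕ × ℕ => Gn ar har n x.1 x.2.1 x.2.2 := by
  have h : REPred fun x : ℕ × ℕ × ℕ => ∃ a b, W x.1 (Nat.pair a b) ∧ (∃ L, Cl ar n L ∧ a ∈ L) ∧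
      (∃ L, Cl ar n L ∧ b ∈ L) ∧ nfc a = x.2.1 ∧ nfc b = x.2.2 := by
    refine RE.ex (p := fun (x : ℕ × ℕ × ℕ) (a : ℕ) => ∃ b, W x.1 (Nat.pair a b) ∧
      (∃ L, Cl ar n L ∧ a ∈ L) ∧ (∃ L, Cl ar n L ∧ b ∈ L) ∧ nfc a = x.2.1 ∧ nfc b = x.2.2) ?_
    refine RE.ex (p := fun (x : (ℕ × ℕ × ℕ) × ℕ) (b : ℕ) => W x.1.1 (Nat.pair x.2 b) ∧
      (∃ L, Cl ar n L ∧ x.2 ∈ L) ∧ (∃ L, Cl ar n L ∧ b ∈ L) ∧ nfc x.2 = x.1.2.1 ∧
        nfc b = x.1.2.2) ?_
    refine RE.and (RE.comp re_W (f := fun x : ((ℕ × ℕ × ℕ) × ℕ) × ℕ =>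
      (x.1.1.1, Nat.pair x.1.2 x.2)) (by fun_prop)) (RE.and (RE.comp (re_Cl har n)
      (f := fun x : ((ℕ × ℕ × ℕ) × ℕ) × ℕ => x.1.2) (by fun_prop)) (RE.and
      (RE.comp (re_Cl har n) (f := fun x : ((ℕ × ℕ × ℕ) × ℕ) × ℕ => x.2) (by fun_prop)) ?_))
    exact RE.and (RE.eq (computable_nfc.comp (by fun_prop)) (by fun_prop))
      (RE.eq (computable_nfc.comp (by fun_prop)) (by fun_prop))
  refine h.of_eq fun x => ?_
  constructor
  · rintro ⟨a, b, h1, h2, h3, h4, h5⟩
    obtain ⟨s, rfl⟩ := (code_iff (har := har)).2 h2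
    obtain ⟨t, rfl⟩ := (code_iff (har := har)).2 h3
    exact ⟨s, t, h1, by rw [← nfc_code]; exact h4, by rw [← nfc_code]; exact h5⟩
  · rintro ⟨s, t, h1, h2, h3⟩
    exact ⟨s.code, t.code, h1, code_iff.1 ⟨s, rfl⟩, code_iff.1 ⟨t, rfl⟩,
      by rw [nfc_code]; exact h2, by rw [nfc_code]; exact h3⟩

theorem re_T (ar : ℕ → ℕ) (har : Computable ar) (n : ℕ) :
    REPred fun x : ℕ × ℕ × ℕ => T ar har n x.1 x.2.1 x.2.2 := by
  refine re_reach (α := ℕ) (r := fun e u v => Gs ar har n e u v) ?_
  exact RE.or (re_Gn ar har n) (RE.comp (re_Gn ar har n)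
    (f := fun x : ℕ × ℕ × ℕ => (x.1, x.2.2, x.2.1)) (by fun_prop))

/-! ### the constants and the other elements of `V_n[W_e]` -/

/-- the constants -/
def cK (ar : ℕ → ℕ) (har : Computable ar) {n : ℕ} (hn : 0 < n) (e k : ℕ) :
    (Pres (constOps ar har) n e).carrier :=
  Quotient.mk (cgSetoid (constOps ar har) n e) (.app k trivial fun _ => .var ⟨0, hn⟩)

theorem constAlg (hn : 0 < n) (e : ℕ) :
    ConstAlg (Pres (constOps ar har) n e) (cK ar har hn e) := fun _ _ _ =>
  Quotient.sound (s := cgSetoid (constOps ar har) n e) (cg_of_nf hn rfl)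

theorem mk_eq_iff (hn : 0 < n) {e : ℕ} {s t : Tm (sig ar har) (Fin n)} :
    Quotient.mk (cgSetoid (constOps ar har) n e) s = Quotient.mk (cgSetoid (constOps ar har) n e) t
      ↔ T ar har n e (nf s) (nf t) := by
  rw [← cg_iff hn]
  exact ⟨fun h => Quotient.exact (s := cgSetoid (constOps ar har) n e) h,
    fun h => Quotient.sound (s := cgSetoid (constOps ar har) n e) h⟩

theorem cK_eq_iff (hn : 0 < n) {e a b : ℕ} : cK ar har hn e a = cK ar har hn e b ↔
    T ar har n e (2 * a + 1) (2 * b + 1) := mk_eq_iff hn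

/-- the generators -/
def gK (ar : ℕ → ℕ) (har : Computable ar) {n : ℕ} (e : ℕ) (j : Fin n) :
    (Pres (constOps ar har) n e).carrier :=
  Quotient.mk (cgSetoid (constOps ar har) n e) (.var j)

theorem exists_gK (hn : 0 < n) {e : ℕ} {q : (Pres (constOps ar har) n e).carrier}
    (hq : q ∈ NC (Pres (constOps ar har) n e) (cK ar har hn e)) : ∃ j, q = gK ar har e j := by
  obtain ⟨t, rfl⟩ := Quotient.exists_rep (s := cgSetoid (constOps ar har) n e) q
  cases t with
  | var j => exact ⟨j, rfl⟩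
  | app k h f =>
    exact (hq k ((mk_eq_iff hn).2 (show T ar har n e (2 * k + 1) (2 * k + 1) from .refl))).elim

theorem finite_NC (hn : 0 < n) (e : ℕ) :
    (NC (Pres (constOps ar har) n e) (cK ar har hn e)).Finite := by
  refine (Set.finite_range (gK ar har e)).subset fun q hq => ?_
  obtain ⟨j, rfl⟩ := exists_gK hn hq
  exact ⟨j, rfl⟩

/-- at most `k` classes of generators which are not constants -/
def M (ar : ℕ → ℕ) (har : Computable ar) (n e k : ℕ) : Prop :=
  ∃ L : List ℕ, L.length ≤ k ∧ ∀ j < n, (∃ a, T ar har n e (2 * j) (2 * a + 1)) ∨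
    ∃ y ∈ L, y < n ∧ T ar har n e (2 * j) (2 * y)

theorem M_iff (hn : 0 < n) {e k : ℕ} : M ar har n e k ↔
    (NC (Pres (constOps ar har) n e) (cK ar har hn e)).ncard ≤ k := by
  classical
  constructor
  · rintro ⟨L, hL, h⟩
    let g : ℕ → (Pres (constOps ar har) n e).carrier := fun y =>
      if h : y < n then gK ar har e ⟨y, h⟩ else gK ar har e ⟨0, hn⟩
    have h1 : NC (Pres (constOps ar har) n e) (cK ar har hn e) ⊆ g '' (L.toFinset : Set ℕ) := by
      intro q hq
      obtain ⟨j, rfl⟩ := exists_gK hn hq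
      rcases h j j.2 with ⟨a, ha⟩ | ⟨y, hy, hyn, hT⟩
      · exact absurd ((mk_eq_iff hn).2 ha) (hq a)
      · refine ⟨y, by simpa using hy, ?_⟩
        simp only [g, dif_pos hyn]
        exact ((mk_eq_iff hn).2 hT).symm
    calc (NC (Pres (constOps ar har) n e) (cK ar har hn e)).ncard
        ≤ (g '' (L.toFinset : Set ℕ)).ncard :=
          Set.ncard_le_ncard h1 ((Finset.finite_toSet _).image _)
      _ ≤ (L.toFinset : Set ℕ).ncard := Set.ncard_image_le (Finset.finite_toSet _)
      _ = L.toFinset.card := Set.ncard_coe_finset _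
      _ ≤ L.length := L.toFinset_card_le
      _ ≤ k := hL
  · intro h
    have hf := finite_NC (ar := ar) (har := har) hn e
    have h1 : ∀ q : (Pres (constOps ar har) n e).carrier, ∃ y : ℕ,
        q ∈ NC (Pres (constOps ar har) n e) (cK ar har hn e) →
        ∃ hy : y < n, q = gK ar har e ⟨y, hy⟩ := by
      intro q
      by_cases hq : q ∈ NC (Pres (constOps ar har) n e) (cK ar har hn e)
      · obtain ⟨j, hj⟩ := exists_gK hn hq
        exact ⟨j, fun _ => ⟨j.2, hj⟩⟩
      · exact ⟨0, fun h => absurd h hq⟩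
    choose y hy using h1
    refine ⟨hf.toFinset.toList.map y, ?_, fun j hj => ?_⟩
    · rw [List.length_map, Finset.length_toList, ← Set.ncard_eq_toFinset_card _ hf]
      exact h
    · by_cases hq : gK ar har e ⟨j, hj⟩ ∈ NC (Pres (constOps ar har) n e) (cK ar har hn e)
      · right
        obtain ⟨h2, h3⟩ := hy _ hq
        refine ⟨y (gK ar har e ⟨j, hj⟩), ?_, h2, ?_⟩
        · refine List.mem_map.2 ⟨_, ?_, rfl⟩
          simpa using hq
        · exact (mk_eq_iff hn).1 h3
      · left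
        have : ∃ a, gK ar har e ⟨j, hj⟩ = cK ar har hn e a := by
          by_contra hcon
          push Not at hcon
          exact hq hcon
        obtain ⟨a, ha⟩ := this
        exact ⟨a, (mk_eq_iff hn).1 ha⟩

theorem isoRel_iff (hn : 0 < n) {e e' : ℕ} : IsoRel (constOps ar har) n e e' ↔
    (∀ a b, T ar har n e (2 * a + 1) (2 * b + 1) ↔ T ar har n e' (2 * a + 1) (2 * b + 1)) ∧
    ∀ k, M ar har n e k ↔ M ar har n e' k := by
  unfold IsoRel
  rw [iso_iff (fun k => Set.mem_univ k) (constAlg hn e) (constAlg hn e') (finite_NC hn e)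
    (finite_NC hn e') (cK ar har hn e 0)]
  simp only [cK_eq_iff, M_iff hn]
  refine and_congr_right fun _ => ⟨fun h k => by rw [h], fun h => ?_⟩
  exact le_antisymm ((h _).2 le_rfl) ((h _).1 le_rfl)

/-! ### the reductions -/

theorem isoRel_le (hn : 0 < n) : Le (IsoRel (constOps ar har) n) EqCE := by
  have hM : REPred fun x : ℕ × ℕ => M ar har n x.1 x.2 := by
    refine RE.ex (p := fun (x : ℕ × ℕ) (L : List ℕ) => L.length ≤ x.2 ∧ ∀ j < n,
      (∃ a, T ar har n x.1 (2 * j) (2 * a + 1)) ∨ ∃ y ∈ L, y < n ∧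
        T ar har n x.1 (2 * j) (2 * y)) ?_
    refine RE.and (RE.le (by fun_prop) (by fun_prop)) ?_
    refine RE.all_lt (p := fun (x : (ℕ × ℕ) × List ℕ) (j : ℕ) =>
      (∃ a, T ar har n x.1.1 (2 * j) (2 * a + 1)) ∨ ∃ y ∈ x.2, y < n ∧
        T ar har n x.1.1 (2 * j) (2 * y)) ?_ (f := fun _ => n) (by fun_prop)
    refine RE.or ?_ ?_
    · refine RE.ex (p := fun (x : ((ℕ × ℕ) × List ℕ) × ℕ) (a : ℕ) =>
        T ar har n x.1.1.1 (2 * x.2) (2 * a + 1)) ?_
      exact RE.comp (re_T ar har n) (f := fun x : (((ℕ × ℕ) × List ℕ) × ℕ) × ℕ =>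
        (x.1.1.1.1, 2 * x.1.2, 2 * x.2 + 1)) (by fun_prop)
    · refine RE.ex_mem (p := fun (x : ((ℕ × ℕ) × List ℕ) × ℕ) (y : ℕ) => y < n ∧
        T ar har n x.1.1.1 (2 * x.2) (2 * y)) (l := fun x => x.1.2) ?_ (by fun_prop)
      refine RE.and (RE.lt (by fun_prop) (by fun_prop)) ?_
      exact RE.comp (re_T ar har n) (f := fun x : (((ℕ × ℕ) × List ℕ) × ℕ) × ℕ =>
        (x.1.1.1.1, 2 * x.1.2, 2 * x.2)) (by fun_prop)
  have hP : REPred fun x : ℕ × (ℕ × ℕ × ℕ) =>
      (x.2.1 = 0 ∧ T ar har n x.1 (2 * x.2.2.1 + 1) (2 * x.2.2.2 + 1)) ∨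
      (x.2.1 = 1 ∧ M ar har n x.1 x.2.2.1) := by
    refine RE.or (RE.and (RE.eq (by fun_prop) (by fun_prop)) ?_)
      (RE.and (RE.eq (by fun_prop) (by fun_prop)) ?_)
    · exact RE.comp (re_T ar har n) (f := fun x : ℕ × (ℕ × ℕ × ℕ) =>
        (x.1, 2 * x.2.2.1 + 1, 2 * x.2.2.2 + 1)) (by fun_prop)
    · exact RE.comp hM (f := fun x : ℕ × (ℕ × ℕ × ℕ) => (x.1, x.2.2.1)) (by fun_prop)
  obtain ⟨g, hg, h⟩ := smn (P := fun (e : ℕ) (z : ℕ × ℕ × ℕ) =>
    (z.1 = 0 ∧ T ar har n e (2 * z.2.1 + 1) (2 * z.2.2 + 1)) ∨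
      (z.1 = 1 ∧ M ar har n e z.2.1)) hP
  have h' : ∀ e (z : ℕ × ℕ × ℕ), W (g e) (encode z) ↔
    ((z.1 = 0 ∧ T ar har n e (2 * z.2.1 + 1) (2 * z.2.2 + 1)) ∨
      (z.1 = 1 ∧ M ar har n e z.2.1)) := h
  refine ⟨g, hg, fun e e' => ?_⟩
  rw [isoRel_iff hn]
  constructor
  · rintro ⟨h1, h2⟩
    ext x
    obtain ⟨z, rfl⟩ : ∃ z : ℕ × ℕ × ℕ, encode z = x :=
      ⟨Denumerable.ofNat (ℕ × ℕ × ℕ) x, Denumerable.encode_ofNat x⟩
    simp only [Set.mem_ofPred_eq]
    rw [h', h', h1, h2]
  · intro heq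
    have h1 : ∀ x, W (g e) x ↔ W (g e') x := fun x => by
      have := Set.ext_iff.1 heq x
      simpa only [Set.mem_ofPred_eq] using this
    constructor
    · intro a b
      have := h1 (encode ((0, a, b) : ℕ × ℕ × ℕ))
      rw [h', h'] at this
      simpa using this
    · intro k
      have := h1 (encode ((1, k, 0) : ℕ × ℕ × ℕ))
      rw [h', h'] at this
      simpa using this

/-- the code of the constant `c_k` -/
def cc (ar : ℕ → ℕ) (k : ℕ) : ℕ := 2 * Nat.pair k (encode (List.replicate (ar k) 0)) + 1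

theorem code_const (hn : 0 < n) (k : ℕ) :
    (Tm.app (S := sig ar har) k trivial fun _ => Tm.var (⟨0, hn⟩ : Fin n)).code = cc ar k := by
  show 2 * Nat.pair k (encode (List.ofFn fun _ : Fin (ar k) => 2 * 0)) + 1 = _
  rw [cc, List.ofFn_const]

theorem nfc_cc (k : ℕ) : nfc (cc ar k) = 2 * k + 1 := by
  unfold nfc cc
  have h1 : ¬ (2 * Nat.pair k (encode (List.replicate (ar k) 0)) + 1) % 2 = 0 := by omega
  have h2 : (2 * Nat.pair k (encode (List.replicate (ar k) 0)) + 1) / 2 =
    Nat.pair k (encode (List.replicate (ar k) 0)) := by omega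
  rw [if_neg h1, h2, Nat.unpair_pair]

theorem computable_cc (har : Computable ar) : Computable (cc ar) := by
  have h1 : Computable fun k => List.replicate (ar k) (0 : ℕ) := by
    refine RE.computable_of_graph ?_
    have h : REPred fun x : ℕ × List ℕ => x.2.length = ar x.1 ∧
        ∀ i < x.2.length, x.2[i]? = some 0 := by
      refine RE.and (RE.eq (by fun_prop) (har.comp (by fun_prop))) ?_
      exact RE.all_lt (p := fun (x : ℕ × List ℕ) (i : ℕ) => x.2[i]? = some 0)
        (RE.eq (by fun_prop) (by fun_prop)) (f := fun x => x.2.length) (by fun_prop)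
    refine h.of_eq fun x => ?_
    constructor
    · rintro ⟨h2, h3⟩
      apply List.ext_getElem?
      intro i
      by_cases hi : i < x.2.length
      · rw [h3 i hi, List.getElem?_replicate, if_pos (by omega)]
      · rw [List.getElem?_eq_none (l := x.2) (by omega), List.getElem?_replicate,
          if_neg (by omega)]
    · intro h
      rw [← h]
      refine ⟨by simp, fun i hi => ?_⟩
      rw [List.getElem?_replicate, if_pos (by simpa using hi)]
  unfold cc
  fun_prop

theorem le_isoRel (hn : 0 < n) : Le EqCE (IsoRel (constOps ar har) n) := by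
  classical
  have hcc := computable_cc har
  have hP : REPred fun x : ℕ × ℕ => (∃ i, W x.1 i ∧
      x.2 = Nat.pair (cc ar (2 * i)) (cc ar (2 * i + 1))) ∨
      ∃ j, j < n ∧ x.2 = Nat.pair (2 * j) (cc ar 0) := by
    refine RE.or ?_ ?_
    · refine RE.ex (p := fun (x : ℕ × ℕ) (i : ℕ) => W x.1 i ∧
        x.2 = Nat.pair (cc ar (2 * i)) (cc ar (2 * i + 1))) ?_
      refine RE.and (RE.comp re_W (f := fun x : (ℕ × ℕ) × ℕ => (x.1.1, x.2)) (by fun_prop))
        (RE.eq (by fun_prop) ?_)
      have h1 : Computable fun x : (ℕ × ℕ) × ℕ => cc ar (2 * x.2) := hcc.comp (by fun_prop)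
      have h2 : Computable fun x : (ℕ × ℕ) × ℕ => cc ar (2 * x.2 + 1) := hcc.comp (by fun_prop)
      fun_prop
    · refine RE.ex (p := fun (x : ℕ × ℕ) (j : ℕ) => j < n ∧
        x.2 = Nat.pair (2 * j) (cc ar 0)) ?_
      exact RE.and (RE.lt (by fun_prop) (by fun_prop)) (RE.eq (by fun_prop) (by fun_prop))
  obtain ⟨f, hf, h⟩ := smn (P := fun (e z : ℕ) => (∃ i, W e i ∧
      z = Nat.pair (cc ar (2 * i)) (cc ar (2 * i + 1))) ∨
      ∃ j, j < n ∧ z = Nat.pair (2 * j) (cc ar 0)) hP
  have h' : ∀ e z : ℕ, W (f e) z ↔ ((∃ i, W e i ∧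
      z = Nat.pair (cc ar (2 * i)) (cc ar (2 * i + 1))) ∨
      ∃ j, j < n ∧ z = Nat.pair (2 * j) (cc ar 0)) := h
  have hG : ∀ e u v, Gn ar har n (f e) u v ↔ ((∃ i, W e i ∧ u = 2 * (2 * i) + 1 ∧
      v = 2 * (2 * i + 1) + 1) ∨ ∃ j, j < n ∧ u = 2 * j ∧ v = 1) := by
    intro e u v
    constructor
    · rintro ⟨s, t, h1, rfl, rfl⟩
      rcases (h' _ _).1 h1 with ⟨i, h2, h3⟩ | ⟨j, h2, h3⟩
      · obtain ⟨h4, h5⟩ := Nat.pair_eq_pair.1 h3
        exact Or.inl ⟨i, h2, by rw [← nfc_code, h4, nfc_cc], by rw [← nfc_code, h5, nfc_cc]⟩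
      · obtain ⟨h4, h5⟩ := Nat.pair_eq_pair.1 h3
        refine Or.inr ⟨j, h2, ?_, by rw [← nfc_code, h5, nfc_cc]⟩
        rw [← nfc_code, h4]
        simp [nfc]
    · rintro (⟨i, h1, rfl, rfl⟩ | ⟨j, h1, rfl, rfl⟩)
      · refine ⟨.app (2 * i) trivial fun _ => .var ⟨0, hn⟩, .app (2 * i + 1) trivial fun _ =>
          .var ⟨0, hn⟩, ?_, rfl, rfl⟩
        rw [code_const, code_const, h']
        exact Or.inl ⟨i, h1, rfl⟩
      · refine ⟨.var ⟨j, h1⟩, .app 0 trivial fun _ => .var ⟨0, hn⟩, ?_, rfl, rfl⟩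
        rw [code_const, h']
        exact Or.inr ⟨j, h1, rfl⟩
  have hM : ∀ e k, M ar har n (f e) k := by
    intro e k
    refine ⟨[], Nat.zero_le _, fun j hj => Or.inl ⟨0, .single (Or.inl ?_)⟩⟩
    rw [hG]
    exact Or.inr ⟨j, hj, rfl, rfl⟩
  -- an invariant
  let inv : ℕ → ℕ → ℕ := fun e u =>
    let k := if u % 2 = 0 then 0 else u / 2
    if W e (k / 2) then 2 * (k / 2) else k
  have hinv : ∀ e u v, T ar har n (f e) u v → inv e u = inv e v := by
    intro e u v huv
    have hG' : ∀ u v, Gn ar har n (f e) u v → inv e u = inv e v := by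
      intro u v huv
      rcases (hG e u v).1 huv with ⟨i, h1, rfl, rfl⟩ | ⟨j, h1, rfl, rfl⟩
      · have a1 : ¬ (2 * (2 * i) + 1) % 2 = 0 := by omega
        have a2 : (2 * (2 * i) + 1) / 2 / 2 = i := by omega
        have a3 : ¬ (2 * (2 * i + 1) + 1) % 2 = 0 := by omega
        have a4 : (2 * (2 * i + 1) + 1) / 2 / 2 = i := by omega
        simp only [inv, if_neg a1, if_neg a3, a2, a4, if_pos h1]
      · simp [inv]
    induction huv with
    | refl => rfl
    | tail _ hbc ih =>
      rw [ih]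
      rcases hbc with h1 | h1
      · exact hG' _ _ h1
      · exact (hG' _ _ h1).symm
  have hT : ∀ e i, T ar har n (f e) (2 * (2 * i) + 1) (2 * (2 * i + 1) + 1) ↔ W e i := by
    intro e i
    constructor
    · intro h1
      have h2 := hinv e _ _ h1
      have a1 : ¬ (2 * (2 * i) + 1) % 2 = 0 := by omega
      have a2 : (2 * (2 * i) + 1) / 2 / 2 = i := by omega
      have a3 : ¬ (2 * (2 * i + 1) + 1) % 2 = 0 := by omega
      have a4 : (2 * (2 * i + 1) + 1) / 2 / 2 = i := by omega
      simp only [inv, if_neg a1, if_neg a3, a2, a4] at h2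
      by_contra hcon
      simp only [if_neg hcon] at h2
      omega
    · intro h1
      exact .single (Or.inl ((hG _ _ _).2 (Or.inl ⟨i, h1, rfl, rfl⟩)))
  refine ⟨f, hf, fun e e' => ?_⟩
  rw [isoRel_iff hn]
  constructor
  · intro heq
    have h1 : ∀ x, W e x ↔ W e' x := fun x => by
      have := Set.ext_iff.1 heq x
      simpa only [Set.mem_ofPred_eq] using this
    have h2 : Gs ar har n (f e) = Gs ar har n (f e') := by
      funext u v
      simp only [Gs, hG, h1]
    refine ⟨fun a b => by unfold T; rw [h2], fun k => ⟨fun _ => hM _ _, fun _ => hM _ _⟩⟩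
  · rintro ⟨h1, -⟩
    ext x
    simp only [Set.mem_ofPred_eq]
    rw [← hT e x, ← hT e' x]
    exact h1 _ _

end const

theorem eqCE_iff {e e' : ℕ} : EqCE e e' ↔ Pool.Agent.Q316.Var.EqCE e e' := by
  constructor
  · intro h x
    exact Set.ext_iff.1 h x
  · intro h
    ext x
    exact h x

theorem nontriv (ar : ℕ → ℕ) (har : Computable ar) : (constOps ar har).Nontriv := by
  refine ⟨⟨Bool, fun _ _ _ => true⟩, ?_, true, false, by simp⟩
  rintro _ ⟨k, h, rfl⟩ v
  rfl

/-- For every computable arity function `ar` (with one operation symbol of arity `ar k` for every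
`k`), the nontrivial variety of all algebras in which every operation is constant has
`I_{V_n} ≡_c (=^ce)` for all `n ≥ 1`; in particular `I_{V_n} ≡_c I_{V_{n+1}}`, and `I_{V_n}` lies
strictly below the `Σ⁰₃`-complete equivalence relations (of which there are some). -/
theorem result : (∃ E, Complete E) ∧ ∀ (ar : ℕ → ℕ) (har : Computable ar),
    (constOps ar har).Nontriv ∧ ∀ n ≥ 1,
      (Le (IsoRel (constOps ar har) n) (IsoRel (constOps ar har) (n + 1)) ∧
        Le (IsoRel (constOps ar har) (n + 1)) (IsoRel (constOps ar har) n)) ∧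
      (∀ E, Complete E → Le (IsoRel (constOps ar har) n) E ∧
        ¬ Le E (IsoRel (constOps ar har) n)) ∧
      Le (IsoRel (constOps ar har) n) EqCE ∧ Le EqCE (IsoRel (constOps ar har) n) := by
  have heq : EqCE = Pool.Agent.Q316.Var.EqCE := by
    funext e e'
    exact propext eqCE_iff
  refine ⟨exists_complete, fun ar har => ⟨nontriv ar har, fun n hn => ?_⟩⟩
  have h1 := isoRel_le (ar := ar) (har := har) (n := n) hn
  have h2 := le_isoRel (ar := ar) (har := har) (n := n) hn
  have h3 := isoRel_le (ar := ar) (har := har) (n := n + 1) (Nat.succ_pos _)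
  have h4 := le_isoRel (ar := ar) (har := har) (n := n + 1) (Nat.succ_pos _)
  have htr : ∀ {E F G : ℕ → ℕ → Prop}, Le E F → Le F G → Le E G := fun h h' =>
    Pool.Agent.Q316.Var.Le.trans h h'
  refine ⟨⟨htr h1 h4, htr h3 h2⟩, fun E hE => ⟨?_, fun hcon => ?_⟩, h1, h2⟩
  · refine htr h1 (hE.2.2 EqCE ?_ ?_)
    · rw [heq]; exact eqCE_equivalence
    · rw [heq]; exact eqCE_sigma3
  · obtain ⟨F, hF1, hF2, hF3⟩ := exists_not_le
    refine hF3 ?_
    rw [← heq]
    exact htr (hE.2.2 F hF1 hF2) (htr hcon h1)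

end Pool.Agent.Results.MP_f76ce6_lc.ConstantOperations
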